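import Mathlib
import Pool.Agent.H14.NilSemi

set_option autoImplicit false

namespace Pool.Agent.Results.MP_1fd3e3_co.Unions

open Pool.Agent.H14.NilSemi

universe u v

/-- the collection `H_Q`. -/
def HQ (Q : Type u) : Set (Set ℕ) :=
  {X | ∃ (S : Type v) (_ : Semigroup S) (A : Q → Set S), (Set.range A).Infinite ∧ H A = X}

/-- the collection `H^*_N`. -/
def HStar : Set (Set ℕ) :=
  {X | ∃ (S : Type v) (_ : Semigroup S) (A : ℕ → Set S), AsympStrict A ∧ H A = X}

theorem ppow_lift {S : Type} [Semigroup S] (A : Set S) (h : ℕ) :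
    ppow (ULift.down ⁻¹' A : Set (ULift.{v} S)) h = ULift.down ⁻¹' ppow A h := by
  have key : ∀ (l : List (ULift.{v} S)) (a : ULift.{v} S),
      (l.foldl (· * ·) a).down = (l.map ULift.down).foldl (· * ·) a.down := by
    intro l
    induction l with
    | nil => intro a; rfl
    | cons b l ih => intro a; exact ih _
  ext x
  constructor
  · rintro ⟨a, l, h1, h2, h3, rfl⟩
    refine ⟨a.down, l.map ULift.down, by simpa using h1, h2, ?_, key l a⟩
    intro b hb
    obtain ⟨c, hc, rfl⟩ := List.mem_map.1 hb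
    exact h3 c hc
  · rintro ⟨a, l, h1, h2, h3, h4⟩
    refine ⟨⟨a⟩, l.map ULift.up, by simpa using h1, h2, ?_, ?_⟩
    · intro b hb
      obtain ⟨c, hc, rfl⟩ := List.mem_map.1 hb
      exact h3 c hc
    · apply ULift.down_injective
      rw [key, List.map_map, h4]
      simp [Function.comp_def]

theorem pre_inj {S : Type} : Function.Injective
    (fun A : Set S => (ULift.down ⁻¹' A : Set (ULift.{v} S))) :=
  Set.preimage_injective.2 fun x => ⟨⟨x⟩, rfl⟩

theorem H_lift {S : Type} [Semigroup S] {Q : Type u} (A : Q → Set S) :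
    H (fun q => (ULift.down ⁻¹' A q : Set (ULift.{v} S))) = H A := by
  ext h
  simp only [H, Set.mem_ofPred_eq, ← Set.preimage_iInter, ppow_lift]
  exact and_congr_right fun _ => pre_inj.eq_iff

/-- Both collections are closed under unions. -/
theorem result :
    (∀ (Q : Type u) [Infinite Q], ∀ X ∈ HQ.{u, v} Q, ∀ Y ∈ HQ.{u, v} Q, X ∪ Y ∈ HQ.{u, v} Q) ∧
    (∀ X ∈ HStar.{v}, ∀ Y ∈ HStar.{v}, X ∪ Y ∈ HStar.{v}) := by
  constructor
  · rintro Q _ X ⟨S, _, A, -, rfl⟩ Y ⟨S', _, B, -, rfl⟩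
    obtain ⟨C, h1, h2⟩ := fam_real Q (H A ∪ H B) (Or.inl (one_mem_H A))
      (fun h hh => hh.elim (·.1) (·.1))
    refine ⟨ULift.{v} T, inferInstance, fun q => ULift.down ⁻¹' C q, ?_, (H_lift C).trans h2⟩
    have := h1.image pre_inj.{v}.injOn
    rwa [← Set.range_comp] at this
  · rintro X ⟨S, _, A, -, rfl⟩ Y ⟨S', _, B, -, rfl⟩
    obtain ⟨⟨h1, h1'⟩, h2⟩ := seq_real (H A ∪ H B) (Or.inl (one_mem_H A))
      (fun h hh => hh.elim (·.1) (·.1))
    refine ⟨ULift.{v} T, inferInstance, fun q => ULift.down ⁻¹' fam (H A ∪ H B) q,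
      ⟨fun q => Set.preimage_mono (h1 q), Set.Infinite.mono ?_ h1'⟩, (H_lift _).trans h2⟩
    intro q hq h
    exact hq (pre_inj h)

end Pool.Agent.Results.MP_1fd3e3_co.Unions
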